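import Pool.Agent.H44.DV.Targets

/-!
# Board dv_modules, module NF: without closed leaves there are no free intervals
-/

set_option autoImplicit false

namespace Pool.Agent.H74.DV

open Pool.Agent.H44.DU

theorem wd_succ {n : ℕ} (W : ℕ → Side n) (k : ℕ) : wd W (k + 1) = wd W k ++ [W k] := by
  unfold wd
  rw [List.range_succ, List.map_append, List.map_singleton]

theorem pf_NF (h1 : D_AT) : D_NF := by
  intro n S t c₀ hgd hc hgain hnw hper W c d hcd hfr
  set x : ℝ := (c + d) / 2 with hx
  have hxc : c < x := by rw [hx]; linarith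
  have hxd : x < d := by rw [hx]; linarith
  have hrun : ∀ k, S.Run t (wd W k) x := fun k => hfr k x hxc hxd
  have hinj : ∀ k, S.InJ t (W k) (S.g t (wd W k) x) := by
    intro k
    have h2 := hrun (k + 1)
    rw [wd_succ, S.run_append] at h2
    exact (S.run_single t (W k) _).1 h2.2.2
  have htr : ∀ k, S.Tr t ((fun k => (W k, S.g t (wd W k) x)) k)
      ((fun k => (W k, S.g t (wd W k) x)) (k + 1)) := by
    intro k
    refine ⟨hinj k, hinj (k + 1), ?_, ?_⟩
    · have h2 := hrun (k + 2)
      rw [show k + 2 = (k + 1) + 1 by ring, wd_succ, wd_succ, S.run_snoc] at h2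
      exact h2.2.1
    · change S.g t (wd W (k + 1)) x = S.mv t (W k) (S.g t (wd W k) x)
      rw [wd_succ, S.g_append, S.g_single]
  obtain ⟨q, hq, -⟩ := h1 n S t c₀ hgd hc hgain hnw (fun k => (W k, S.g t (wd W k) x)) c d htr
    hcd hfr
  rw [hper] at hq
  exact hq

end Pool.Agent.H74.DV
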