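import Pool.Agent.H44.DV.Targets

/-!
# Board dv_modules, module Z3: the scales of the reversed surface
-/

set_option autoImplicit false

namespace Pool.Agent.H74.DV

open Pool.Agent.H44.DU

theorem rev_A {n : ℕ} (S : Surf n) (w : List (Side n)) :
    S.rev.A ((w.map S.gl).reverse) = (S.A w)⁻¹ := by
  induction w with
  | nil => simp [Surf.A]
  | cons r w ih =>
    have h1 : S.rev.A [S.gl r] = (S.a r)⁻¹ := by
      change S.a (S.gl r) * 1 = (S.a r)⁻¹
      rw [mul_one, S.a_gl]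
    rw [List.map_cons, List.reverse_cons, Surf.A_append, ih, h1, Surf.A, mul_inv, mul_comm]

theorem rev_run (hRV : T_RV) {n : ℕ} (S : Surf n) (t : ℝ) (w : List (Side n)) (x : ℝ)
    (h : S.Run t w x) : ∃ y, S.rev.Run t ((w.map S.gl).reverse) y := by
  cases w with
  | nil => exact ⟨0, trivial⟩
  | cons r w =>
    obtain ⟨h1, h2, h3⟩ := h
    have h4 : S.InI t (S.gl r) (S.mv t r x) := (S.inI_gl_iff t r x).2 h1
    have h5 := hRV n S t (S.mv t r x) (S.gl r) w h4 h3 h2
    rw [List.map_cons, List.reverse_cons]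
    exact ⟨_, h5⟩

theorem pf_Z3 (hRV : T_RV) : D_Z3 := by
  intro n S t hlow ε hε
  obtain ⟨C, hC, H⟩ := hlow ε hε
  refine ⟨C, hC, fun w x hw => ?_⟩
  obtain ⟨y, hy⟩ := rev_run hRV S t w x hw
  have h1 := H _ y hy
  rw [rev_A, List.length_reverse, List.length_map] at h1
  have hA := S.A_pos w
  have h2 : S.A w ≤ (C⁻¹ * Real.exp (-ε * w.length))⁻¹ := by
    rw [← inv_inv (S.A w)]
    exact inv_anti₀ (mul_pos (inv_pos.2 hC) (Real.exp_pos _)) h1
  rw [mul_inv, inv_inv, ← Real.exp_neg, neg_mul, neg_neg] at h2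
  exact h2

end Pool.Agent.H74.DV
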